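import Mathlib

set_option autoImplicit false

/-! Prime chains from almost all primes: numerical estimates, for all the scales `n`. -/

namespace Pool.Agent.Helper12.CG

theorem bound_le (n μ : ℕ) (X : ℝ) (hμ : 18 ≤ μ) (hn : 2 * μ ^ 2 ≤ n) (hn2 : 2 * n + 16 * μ ^ 2 + 23 ≤ 2 ^ (μ + 2))
    (hX1 : 1 ≤ X) (hX : X ≤ 2 ^ (2 * n + 16 * μ ^ 2 + 22)) :
    (8 * ((2 ^ (4 * μ ^ 2) : ℕ) : ℝ) ^ 2 * ((2 ^ (n + 5) : ℕ) : ℝ) ^ 2 * Real.log X ^ 2 +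
      12 * (1 + Real.log ((2 ^ (n + 5) : ℕ) : ℝ)) * (Real.sqrt X / ((2 ^ n : ℕ) : ℝ) +
        (Real.sqrt (X / ((2 ^ (4 * μ ^ 2) : ℕ) : ℝ)) + Real.sqrt (X / ((2 ^ (4 * μ ^ 2) : ℕ) : ℝ))) +
        ((2 ^ (n + 5) : ℕ) : ℝ)) * (Real.sqrt X * (1 + Real.log X) ^ 3) *
          Real.log X + 2 * ((2 ^ (n + 5) : ℕ) : ℝ) * Real.log X ^ 2) * 2 ^ (10 * μ) ≤
      2 ^ (2 * n + 15 * μ ^ 2 + 2) := by
  push_cast
  have hM : (0 : ℝ) < 2 ^ (μ + 2) := by positivity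
  have hn2' : (2 : ℝ) * n + 16 * μ ^ 2 + 23 ≤ 2 ^ (μ + 2) := by exact_mod_cast hn2
  have hl2 : Real.log 2 ≤ 1 := by
    have := Real.log_two_lt_d9
    linarith
  have hl2' : 0 ≤ Real.log 2 := Real.log_nonneg (by norm_num)
  have hL0 : 0 ≤ Real.log X := Real.log_nonneg hX1
  have hL1 : Real.log X ≤ 2 * n + 16 * μ ^ 2 + 22 := by
    calc Real.log X ≤ Real.log (2 ^ (2 * n + 16 * μ ^ 2 + 22)) :=
          Real.log_le_log (by linarith) hX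
      _ = ((2 * n + 16 * μ ^ 2 + 22 : ℕ) : ℝ) * Real.log 2 := by rw [Real.log_pow]
      _ ≤ ((2 * n + 16 * μ ^ 2 + 22 : ℕ) : ℝ) * 1 := by gcongr
      _ = _ := by push_cast; ring
  have hL2 : 1 + Real.log X ≤ 2 ^ (μ + 2) := by linarith
  have hL3 : Real.log X ≤ 2 ^ (μ + 2) := by linarith
  have hF : 1 + Real.log ((2 : ℝ) ^ (n + 5)) ≤ 2 ^ (μ + 2) := by
    have h1 : Real.log ((2 : ℝ) ^ (n + 5)) ≤ n + 5 := by
      rw [Real.log_pow]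
      calc ((n + 5 : ℕ) : ℝ) * Real.log 2 ≤ ((n + 5 : ℕ) : ℝ) * 1 := by gcongr
        _ = _ := by push_cast; ring
    have h2 : (0 : ℝ) ≤ n := Nat.cast_nonneg n
    have h3 : (0 : ℝ) ≤ 16 * (μ : ℝ) ^ 2 := by positivity
    linarith
  have hF0 : 0 ≤ 1 + Real.log ((2 : ℝ) ^ (n + 5)) := by
    have : 0 ≤ Real.log ((2 : ℝ) ^ (n + 5)) := Real.log_nonneg (one_le_pow₀ (by norm_num))
    linarith
  have hs1 : Real.sqrt X ≤ 2 ^ (n + 8 * μ ^ 2 + 11) := by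
    rw [Real.sqrt_le_left (by positivity), ← pow_mul]
    refine hX.trans (le_of_eq ?_)
    congr 1
    ring
  have hs2 : Real.sqrt (X / (2 : ℝ) ^ (4 * μ ^ 2)) ≤ 2 ^ (n + 6 * μ ^ 2 + 11) := by
    rw [Real.sqrt_le_left (by positivity), ← pow_mul, div_le_iff₀ (by positivity), ← pow_add]
    refine hX.trans (le_of_eq ?_)
    congr 1
    ring
  have hs3 : Real.sqrt X / (2 : ℝ) ^ n ≤ 2 ^ (n + 6 * μ ^ 2 + 11) := by
    rw [div_le_iff₀ (by positivity), ← pow_add]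
    refine hs1.trans (pow_le_pow_right₀ (by norm_num) ?_)
    omega
  have hs4 : (2 : ℝ) ^ (n + 5) ≤ 2 ^ (n + 6 * μ ^ 2 + 11) := pow_le_pow_right₀ (by norm_num) (by omega)
  have hs0 : 0 ≤ Real.sqrt X := Real.sqrt_nonneg _
  have hs5 : 0 ≤ Real.sqrt (X / (2 : ℝ) ^ (4 * μ ^ 2)) := Real.sqrt_nonneg _
  -- the three terms
  have t1 : 8 * ((2 : ℝ) ^ (4 * μ ^ 2)) ^ 2 * (2 ^ (n + 5)) ^ 2 * Real.log X ^ 2 * 2 ^ (10 * μ) ≤
      2 ^ (2 * n + 15 * μ ^ 2) := by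
    calc 8 * ((2 : ℝ) ^ (4 * μ ^ 2)) ^ 2 * (2 ^ (n + 5)) ^ 2 * Real.log X ^ 2 * 2 ^ (10 * μ)
        ≤ 2 ^ 3 * ((2 : ℝ) ^ (4 * μ ^ 2)) ^ 2 * (2 ^ (n + 5)) ^ 2 * (2 ^ (μ + 2)) ^ 2 * 2 ^ (10 * μ) := by
          norm_num
          gcongr
      _ = 2 ^ (3 + (4 * μ ^ 2) * 2 + (n + 5) * 2 + (μ + 2) * 2 + 10 * μ) := by
          rw [← pow_mul, ← pow_mul, ← pow_mul, ← pow_add, ← pow_add, ← pow_add, ← pow_add]
      _ ≤ _ := by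
          apply pow_le_pow_right₀ (by norm_num)
          nlinarith
  have t2 : 12 * (1 + Real.log ((2 : ℝ) ^ (n + 5))) * (Real.sqrt X / 2 ^ n +
        (Real.sqrt (X / (2 : ℝ) ^ (4 * μ ^ 2)) + Real.sqrt (X / (2 : ℝ) ^ (4 * μ ^ 2))) +
        2 ^ (n + 5)) * (Real.sqrt X * (1 + Real.log X) ^ 3) * Real.log X * 2 ^ (10 * μ) ≤
      2 ^ (2 * n + 15 * μ ^ 2) := by
    calc 12 * (1 + Real.log ((2 : ℝ) ^ (n + 5))) * (Real.sqrt X / 2 ^ n +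
        (Real.sqrt (X / (2 : ℝ) ^ (4 * μ ^ 2)) + Real.sqrt (X / (2 : ℝ) ^ (4 * μ ^ 2))) +
        2 ^ (n + 5)) * (Real.sqrt X * (1 + Real.log X) ^ 3) * Real.log X * 2 ^ (10 * μ)
        ≤ 2 ^ 4 * 2 ^ (μ + 2) * (2 ^ (n + 6 * μ ^ 2 + 11) + (2 ^ (n + 6 * μ ^ 2 + 11) +
          2 ^ (n + 6 * μ ^ 2 + 11)) + 2 ^ (n + 6 * μ ^ 2 + 11)) *
          (2 ^ (n + 8 * μ ^ 2 + 11) * (2 ^ (μ + 2)) ^ 3) * 2 ^ (μ + 2) * 2 ^ (10 * μ) := by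
          have h12 : (12 : ℝ) ≤ 2 ^ 4 := by norm_num
          have hd : 0 ≤ Real.sqrt X / (2 : ℝ) ^ n := by positivity
          gcongr
      _ = 2 ^ 4 * 2 ^ (μ + 2) * (2 ^ 2 * 2 ^ (n + 6 * μ ^ 2 + 11)) *
          (2 ^ (n + 8 * μ ^ 2 + 11) * (2 ^ (μ + 2)) ^ 3) * 2 ^ (μ + 2) * 2 ^ (10 * μ) := by ring
      _ = 2 ^ (4 + (μ + 2) + (2 + (n + 6 * μ ^ 2 + 11)) + ((n + 8 * μ ^ 2 + 11) + (μ + 2) * 3) + (μ + 2) +
          10 * μ) := by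
          rw [← pow_mul, ← pow_add, ← pow_add, ← pow_add, ← pow_add, ← pow_add, ← pow_add, ← pow_add]
      _ ≤ _ := by
          apply pow_le_pow_right₀ (by norm_num)
          nlinarith
  have t3 : 2 * (2 : ℝ) ^ (n + 5) * Real.log X ^ 2 * 2 ^ (10 * μ) ≤ 2 ^ (2 * n + 15 * μ ^ 2) := by
    calc 2 * (2 : ℝ) ^ (n + 5) * Real.log X ^ 2 * 2 ^ (10 * μ)
        ≤ 2 ^ 1 * (2 : ℝ) ^ (n + 5) * (2 ^ (μ + 2)) ^ 2 * 2 ^ (10 * μ) := by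
          rw [pow_one]
          gcongr
      _ = 2 ^ (1 + (n + 5) + (μ + 2) * 2 + 10 * μ) := by
          rw [← pow_mul, ← pow_add, ← pow_add, ← pow_add]
      _ ≤ _ := by
          apply pow_le_pow_right₀ (by norm_num)
          nlinarith
  have h4 : (2 : ℝ) ^ (2 * n + 15 * μ ^ 2 + 2) = 4 * 2 ^ (2 * n + 15 * μ ^ 2) := by
    rw [pow_add]; ring
  rw [h4, add_mul, add_mul]
  have h0 : (0 : ℝ) ≤ 2 ^ (2 * n + 15 * μ ^ 2) := by positivity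
  linarith

/-- the correction of the scales -/
def hh (μ : ℕ) : ℕ := 16 * μ ^ 2 + 32 * μ + 64

/-- `μ` belongs to the scale `n` -/
def Sc (n μ : ℕ) : Prop := 18 ≤ μ ∧ 2 ^ μ ≤ n + hh μ ∧ n + hh μ < 2 ^ (μ + 1)

/-- the scale following `n` -/
def nx (n μ : ℕ) : ℕ := 2 * n + 16 * μ ^ 2 + 16

theorem nx_add (n μ : ℕ) : nx n μ + hh (μ + 1) = 2 * (n + hh μ) := by
  unfold nx hh
  ring

theorem Sc.next {n μ : ℕ} (h : Sc n μ) : Sc (nx n μ) (μ + 1) := by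
  obtain ⟨h1, h2, h3⟩ := h
  refine ⟨by omega, ?_, ?_⟩
  · rw [nx_add, pow_succ]
    omega
  · rw [nx_add, pow_succ]
    omega

theorem le_two_pow (μ : ℕ) (hμ : 14 ≤ μ) : 18 * μ ^ 2 + 32 * μ + 64 ≤ 2 ^ μ := by
  induction μ, hμ using Nat.le_induction with
  | base => norm_num
  | succ k hk ih =>
    rw [pow_succ 2 k]
    nlinarith

theorem le_two_pow' (μ : ℕ) (hμ : 14 ≤ μ) : 2 * hh μ ≤ 2 ^ μ := by
  unfold hh
  induction μ, hμ using Nat.le_induction with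
  | base => norm_num
  | succ k hk ih =>
    rw [pow_succ 2 k]
    nlinarith

theorem Sc.ge {n μ : ℕ} (h : Sc n μ) : 2 * μ ^ 2 ≤ n := by
  obtain ⟨h1, h2, h3⟩ := h
  have := le_two_pow μ (by omega)
  unfold hh at h2
  omega

theorem Sc.half {n μ : ℕ} (h : Sc n μ) : 2 ^ μ ≤ 2 * n := by
  obtain ⟨h1, h2, h3⟩ := h
  have := le_two_pow' μ (by omega)
  omega

theorem Sc.add_hh_le {n μ : ℕ} (h : Sc n μ) : n + hh μ ≤ 2 * n := by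
  obtain ⟨h1, h2, h3⟩ := h
  have := le_two_pow' μ (by omega)
  omega

theorem Sc.lt {n μ : ℕ} (h : Sc n μ) : n + 64 ≤ 2 ^ (μ + 1) := by
  obtain ⟨h1, h2, h3⟩ := h
  unfold hh at h3
  omega

theorem Sc.lt_nx {n μ : ℕ} (_h : Sc n μ) : n + 5 < nx n μ := by
  unfold nx
  omega

theorem exists_Sc (n : ℕ) (hn : 2 ^ 18 ≤ n) : ∃ μ, Sc n μ := by
  classical
  have hex : ∃ μ, n + hh μ < 2 ^ (μ + 1) := by
    refine ⟨n + 18, ?_⟩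
    have h1 := le_two_pow' (n + 18) (by omega)
    have h2 : n < 2 ^ n := Nat.lt_two_pow_self
    have h3 : 2 ^ n ≤ 2 ^ (n + 18) := Nat.pow_le_pow_right (by norm_num) (by omega)
    rw [pow_succ]
    omega
  have h1 := Nat.find_spec hex
  set μ := Nat.find hex with hμ
  have hge : 18 ≤ μ := by
    by_contra hcon
    push Not at hcon
    have h2 : 2 ^ (μ + 1) ≤ 2 ^ 18 := Nat.pow_le_pow_right (by norm_num) (by omega)
    omega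
  refine ⟨μ, hge, ?_, h1⟩
  have h2 := Nat.find_min hex (show μ - 1 < μ by omega)
  push Not at h2
  have h3 : μ - 1 + 1 = μ := by omega
  rw [h3] at h2
  refine h2.trans ?_
  unfold hh
  have h4 : (μ - 1) ^ 2 ≤ μ ^ 2 := Nat.pow_le_pow_left (by omega) 2
  omega

end Pool.Agent.Helper12.CG
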