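import Pool.Agent.Helper12.CH.Tree
import Pool.Agent.Helper12.CG.Bound

set_option autoImplicit false

/-! Prime chains from almost all primes: almost all primes of every window `(2 ^ n, 2 ^ (n + 5)]` start chains of every
length. -/

open Finset Filter Topology

namespace Pool.Agent.Helper12.CG

open Pool.Agent.H410R2 Pool.Agent.H398R2.BV H343E
open Pool.Agent.Helper12.CH (Er Er6 exp_quarter exp_neg_quarter block_ge PB count_ge psi1_pnt sum_err res res_modEq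
  res_coprime isCoprime_of_lt two_pow_card_primeFactors_le)

/-- the primes of the window at the scale `n` -/
def Win (n : ℕ) : Finset ℕ := (Ioc (2 ^ n) (2 ^ (n + 5))).filter Nat.Prime

theorem mem_Win {n q : ℕ} : q ∈ Win n ↔ (2 ^ n < q ∧ q ≤ 2 ^ (n + 5)) ∧ q.Prime := by
  unfold Win
  rw [mem_filter, mem_Ioc]

open Classical in
/-- the primes of the window which do not start a chain of length `N` through the following windows -/
noncomputable def Bad (c : ℤ) : ℕ → ℕ → ℕ → Finset ℕ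
  | 0, _, _ => ∅
  | N + 1, n, μ => (Win n).filter
      (fun q => ∀ p ∈ Win (nx n μ), (q : ℤ) ∣ (p : ℤ) - c → p ∈ Bad c N (nx n μ) (μ + 1))

/-- step 1: a prime `q` with small errors has many followers in the next window -/
theorem many_followers (Y₀ : ℝ) (hY : ∀ Y : ℝ, Y₀ ≤ Y → |psi1 Y - Y| ≤ 1 / 100 * Y) (c : ℤ) (n μ : ℕ) (hS : Sc n μ)
    (hμY : Y₀ ≤ 2 ^ μ) (q : ℕ) (hq : q ∈ Win n)
    (hE : Er6 q (res c q) (2 ^ nx n μ) ≤ 2 ^ nx n μ / (Nat.totient q : ℝ)) :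
    2 ^ (n + 16 * μ ^ 2 + 11) ≤ 2 ^ μ * (PB (nx n μ) q (res c q)).card := by
  obtain ⟨⟨hq1, hq2⟩, hqp⟩ := mem_Win.1 hq
  have hng := hS.ge
  have hμ : 18 ≤ μ := hS.1
  have hnp := hS.next.lt
  obtain ⟨n', hn'⟩ : ∃ n', n' = nx n μ := ⟨_, rfl⟩
  rw [← hn'] at hE hnp ⊢
  have hn1 : n' = 2 * n + 16 * μ ^ 2 + 16 := hn'
  clear hn'
  have hnp' : n' + 5 ≤ 2 ^ (μ + 2) := (Nat.add_le_add_left (by norm_num) n').trans hnp
  have hμn : μ + 1 ≤ n' := by nlinarith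
  have hx : Y₀ ≤ (2 : ℝ) ^ n' * (3 / 4) := by
    have h1 : (2 : ℝ) ^ (μ + 1) ≤ 2 ^ n' := pow_le_pow_right₀ (by norm_num) hμn
    have h2 : (2 : ℝ) ^ (μ + 1) = 2 * 2 ^ μ := pow_succ' 2 μ
    have h3 : (0 : ℝ) < 2 ^ μ := by positivity
    linarith
  have h1 := block_ge Y₀ hY (2 ^ n') (by positivity) hx q (res c q) hqp.one_lt.le hE
  have h2 := count_ge n' q (res c q)
  have h3 : (32 : ℝ) * 2 ^ n' = ((2 ^ (n' + 5) : ℕ) : ℝ) := by
    push_cast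
    ring
  have h4 : (2 : ℝ) ^ n' = ((2 ^ n' : ℕ) : ℝ) := by push_cast; ring
  rw [h3, h4] at h1
  have h5 : ((2 ^ n' : ℕ) : ℝ) / (Nat.totient q : ℝ) ≥ 2 ^ (n + 16 * μ ^ 2 + 11) := by
    have hφ : (0 : ℝ) < Nat.totient q := by exact_mod_cast Nat.totient_pos.mpr hqp.pos
    rw [ge_iff_le, le_div_iff₀ hφ]
    have h6 : (Nat.totient q : ℝ) ≤ 2 ^ (n + 5) := by
      exact_mod_cast (Nat.totient_le q).trans hq2
    calc (2 : ℝ) ^ (n + 16 * μ ^ 2 + 11) * (Nat.totient q : ℝ) ≤ 2 ^ (n + 16 * μ ^ 2 + 11) * 2 ^ (n + 5) := by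
          gcongr
      _ = ((2 ^ n' : ℕ) : ℝ) := by
          push_cast
          rw [← pow_add]
          congr 1
          omega
  -- the prime powers
  have hlog : Real.log ((2 ^ (n' + 5) : ℕ) : ℝ) ≤ 2 ^ (μ + 2) := by
    push_cast
    rw [Real.log_pow]
    have h7 : Real.log 2 ≤ 1 := by
      have := Real.log_two_lt_d9
      linarith
    calc ((n' + 5 : ℕ) : ℝ) * Real.log 2 ≤ ((n' + 5 : ℕ) : ℝ) * 1 := by gcongr
      _ = ((n' + 5 : ℕ) : ℝ) := mul_one _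
      _ ≤ ((2 ^ (μ + 2) : ℕ) : ℝ) := by exact_mod_cast hnp'
      _ = _ := by push_cast; ring
  have hsq : Real.sqrt ((2 ^ (n' + 5) : ℕ) : ℝ) ≤ 2 ^ (n + 8 * μ ^ 2 + 11) := by
    rw [Real.sqrt_le_left (by positivity), ← pow_mul]
    push_cast
    exact pow_le_pow_right₀ (by norm_num) (by omega)
  have hpp : 2 * Real.sqrt ((2 ^ (n' + 5) : ℕ) : ℝ) * Real.log ((2 ^ (n' + 5) : ℕ) : ℝ) ≤
      2 ^ (n + 16 * μ ^ 2 + 11) := by
    calc 2 * Real.sqrt ((2 ^ (n' + 5) : ℕ) : ℝ) * Real.log ((2 ^ (n' + 5) : ℕ) : ℝ)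
        ≤ 2 ^ 1 * 2 ^ (n + 8 * μ ^ 2 + 11) * 2 ^ (μ + 2) := by
          rw [pow_one]
          gcongr
      _ = 2 ^ (1 + (n + 8 * μ ^ 2 + 11) + (μ + 2)) := by rw [← pow_add, ← pow_add]
      _ ≤ _ := by
          apply pow_le_pow_right₀ (by norm_num)
          nlinarith
  have hn5 : (n' : ℝ) + 5 ≤ 2 ^ (μ + 2) := by
    exact_mod_cast hnp'
  have hcard : (0 : ℝ) ≤ ((PB n' q (res c q)).card : ℝ) := Nat.cast_nonneg _
  have hfin : (2 : ℝ) ^ (n + 16 * μ ^ 2 + 11) ≤ 2 ^ μ * ((PB n' q (res c q)).card : ℝ) := by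
    have e2 : (2 : ℝ) ^ (μ + 2) = 4 * 2 ^ μ := by rw [pow_add]; norm_num; ring
    have e3 : ((n' : ℝ) + 5) * ((PB n' q (res c q)).card : ℝ) ≤ 2 ^ (μ + 2) * ((PB n' q (res c q)).card : ℝ) :=
      mul_le_mul_of_nonneg_right hn5 hcard
    rw [e2] at e3
    have e6 : (0 : ℝ) < 2 ^ (n + 16 * μ ^ 2 + 11) := by positivity
    generalize (2 : ℝ) ^ (n + 16 * μ ^ 2 + 11) = A at *
    generalize ((PB n' q (res c q)).card : ℝ) = K at *
    generalize (2 : ℝ) ^ μ = M at *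
    have e4 : 4 * M * K = 4 * (M * K) := by ring
    rw [e4] at e3
    have e5 : 6 * A ≤ (↑n' + 5) * K + A := by
      calc 6 * A ≤ 6 * (((2 ^ n' : ℕ) : ℝ) / (Nat.totient q : ℝ)) := mul_le_mul_of_nonneg_left h5 (by norm_num)
        _ ≤ _ := h1
        _ ≤ _ := h2
        _ ≤ _ := add_le_add le_rfl hpp
    clear h1 h2 h5 hpp h3 h4 hlog hsq hx hE
    linarith
  exact_mod_cast hfin

/-- step 2: few primes of the window have large errors -/
theorem few_large_errors (c : ℤ) (hc : c ≠ 0) (n μ : ℕ) (hSc : Sc n μ) (hcn : c.natAbs < 2 ^ n) (S : Finset ℕ)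
    (hS : ∀ q ∈ S, q ∈ Win n ∧ ¬ Er6 q (res c q) (2 ^ nx n μ) ≤ 2 ^ nx n μ / (Nat.totient q : ℝ)) :
    S.card * 2 ^ (μ ^ 2 + 10 * μ + 2) ≤ 2 ^ n := by
  have hng := hSc.ge
  have hμ : 18 ≤ μ := hSc.1
  have hnp := hSc.next.lt
  obtain ⟨n', hn'⟩ : ∃ n', n' = nx n μ := ⟨_, rfl⟩
  rw [← hn'] at hS hnp
  have hn1 : n' = 2 * n + 16 * μ ^ 2 + 16 := hn'
  clear hn'
  have hμn : μ ≤ n := by nlinarith
  have hP : ∀ q ∈ S, q.Prime ∧ 2 ^ n ≤ q ∧ q ≤ 2 ^ (n + 5) ∧ (res c q).Coprime q := by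
    intro q hq
    obtain ⟨⟨hq1, hq2⟩, hqp⟩ := mem_Win.1 (hS q hq).1
    exact ⟨hqp, hq1.le, hq2, res_coprime c q hqp.pos (isCoprime_of_lt c hc q hqp (hcn.trans hq1))⟩
  have key : ∀ X : ℝ, 1 ≤ X → X ≤ 2 ^ (2 * n + 16 * μ ^ 2 + 22) →
      (∑ q ∈ S, Er q (res c q) X) * 2 ^ (10 * μ) ≤ 2 ^ (2 * n + 15 * μ ^ 2 + 2) := by
    intro X hX1 hX
    refine le_trans ?_ (bound_le n μ X hμ hng (by rw [show μ + 2 = μ + 1 + 1 from rfl]; omega) hX1 hX)
    apply mul_le_mul_of_nonneg_right _ (by positivity)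
    have := sum_err X hX1 (2 ^ (4 * μ ^ 2)) (2 ^ n) (2 ^ (n + 5)) Nat.one_le_two_pow
      (by
        calc 2 = 2 ^ 1 := rfl
          _ ≤ 2 ^ n := Nat.pow_le_pow_right (by norm_num) (by omega)) Nat.one_le_two_pow (res c) S hP
    exact this
  have e1 := exp_quarter
  have e2 := exp_neg_quarter
  have e4 : 1 ≤ Real.exp (1 / 4) := Real.one_le_exp (by norm_num)
  have e5 : Real.exp (-(1 / 4)) ≤ 1 := by
    rw [Real.exp_le_one_iff]
    norm_num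
  have hx2 : (2 : ℝ) ≤ 2 ^ n' := by
    calc (2 : ℝ) = 2 ^ 1 := (pow_one _).symm
      _ ≤ 2 ^ n' := pow_le_pow_right₀ (by norm_num) (by omega)
  have hxM : (64 : ℝ) * 2 ^ n' = 2 ^ (2 * n + 16 * μ ^ 2 + 22) := by
    rw [hn1]
    rw [show 2 * n + 16 * μ ^ 2 + 22 = (2 * n + 16 * μ ^ 2 + 16) + 6 from by ring, pow_add _ _ 6]
    ring
  set x : ℝ := 2 ^ n' with hx
  have hsum : (∑ q ∈ S, Er6 q (res c q) x) * 2 ^ (10 * μ) ≤ 8 * 2 ^ (2 * n + 15 * μ ^ 2 + 2) := by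
    unfold Er6
    simp only [sum_add_distrib]
    have k1 := key (x * Real.exp (1 / 4)) (by nlinarith) (by nlinarith)
    have k2 := key x (by linarith) (by linarith)
    have k3 := key (x * Real.exp (-(1 / 4))) (by nlinarith) (by nlinarith)
    have k4 := key (32 * x * Real.exp (1 / 4)) (by nlinarith) (by nlinarith)
    have k5 := key (32 * x) (by linarith) (by linarith)
    have k6 := key (32 * x * Real.exp (-(1 / 4))) (by nlinarith) (by nlinarith)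
    have h0 : (0 : ℝ) ≤ 2 ^ (2 * n + 15 * μ ^ 2 + 2) := by positivity
    rw [add_mul, add_mul, add_mul, add_mul, add_mul]
    generalize (2 : ℝ) ^ (2 * n + 15 * μ ^ 2 + 2) = A at *
    linarith
  have hlow : (S.card : ℝ) * (x / 2 ^ (n + 5)) ≤ ∑ q ∈ S, Er6 q (res c q) x := by
    rw [← nsmul_eq_mul]
    apply card_nsmul_le_sum
    intro q hq
    obtain ⟨h1, h2⟩ := hS q hq
    obtain ⟨⟨hq1, hq2⟩, hqp⟩ := mem_Win.1 h1
    push Not at h2
    refine le_trans ?_ h2.le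
    have hφ : (0 : ℝ) < Nat.totient q := by exact_mod_cast Nat.totient_pos.mpr hqp.pos
    apply div_le_div_of_nonneg_left (by positivity) hφ
    exact_mod_cast (Nat.totient_le q).trans hq2
  have hfin : (S.card : ℝ) * 2 ^ (μ ^ 2 + 10 * μ + 2) ≤ 2 ^ n := by
    have h1 : (S.card : ℝ) * (x / 2 ^ (n + 5)) * 2 ^ (10 * μ) ≤ 8 * 2 ^ (2 * n + 15 * μ ^ 2 + 2) :=
      (mul_le_mul_of_nonneg_right hlow (by positivity)).trans hsum
    have h2 : x / 2 ^ (n + 5) = 2 ^ (n + 16 * μ ^ 2 + 11) := by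
      rw [div_eq_iff (by positivity), hx, ← pow_add]
      congr 1
      omega
    rw [h2] at h1
    have h3 : (S.card : ℝ) * 2 ^ (n + 16 * μ ^ 2 + 11) * 2 ^ (10 * μ) =
        ((S.card : ℝ) * 2 ^ (μ ^ 2 + 10 * μ + 2)) * 2 ^ (n + 15 * μ ^ 2 + 9) := by
      rw [mul_assoc, mul_assoc, ← pow_add, ← pow_add]
      congr 2
      ring
    have h4 : (8 : ℝ) * 2 ^ (2 * n + 15 * μ ^ 2 + 2) = 2 ^ (n + 15 * μ ^ 2 + 5) * 2 ^ n := by
      rw [show (8 : ℝ) = 2 ^ 3 from by norm_num, ← pow_add, ← pow_add]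
      congr 1
      ring
    have h5 : (2 : ℝ) ^ (n + 15 * μ ^ 2 + 5) ≤ 2 ^ (n + 15 * μ ^ 2 + 9) :=
      pow_le_pow_right₀ (by norm_num) (by omega)
    rw [h3, h4] at h1
    have h6 : ((S.card : ℝ) * 2 ^ (μ ^ 2 + 10 * μ + 2)) * 2 ^ (n + 15 * μ ^ 2 + 9) ≤
        2 ^ n * 2 ^ (n + 15 * μ ^ 2 + 9) := by
      refine h1.trans ?_
      rw [mul_comm]
      gcongr
    exact le_of_mul_le_mul_right h6 (by positivity)
  exact_mod_cast hfin

/-- step 3: double counting -/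
theorem few_without_followers (c : ℤ) (n μ : ℕ) (hSc : Sc n μ) (hcn : c.natAbs < 2 ^ n)
    (S T : Finset ℕ) (hS : ∀ q ∈ S, q ∈ Win n ∧
      2 ^ (n + 16 * μ ^ 2 + 11) ≤ 2 ^ μ * (PB (nx n μ) q (res c q)).card ∧
      ∀ p ∈ Win (nx n μ), (q : ℤ) ∣ (p : ℤ) - c → p ∈ T)
    (hTW : ∀ p ∈ T, p ∈ Win (nx n μ)) (hT : T.card * 2 ^ ((μ + 1) ^ 2 + 10 * (μ + 1)) ≤ 2 ^ nx n μ) :
    S.card * 2 ^ (μ ^ 2 + 10 * μ + 2) ≤ 2 ^ n := by
  classical
  have hng := hSc.ge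
  have hμ : 18 ≤ μ := hSc.1
  have hnp := hSc.next.lt
  obtain ⟨n', hn'⟩ : ∃ n', n' = nx n μ := ⟨_, rfl⟩
  rw [← hn'] at hS hnp hTW hT
  have hn1 : n' = 2 * n + 16 * μ ^ 2 + 16 := hn'
  clear hn'
  have hcn' : c.natAbs < 2 ^ n' := hcn.trans_le (Nat.pow_le_pow_right (by norm_num) (by omega))
  -- the pairs
  have h1 : S.card * 2 ^ (n + 16 * μ ^ 2 + 11) ≤ 2 ^ μ * ∑ q ∈ S, (PB n' q (res c q)).card := by
    rw [mul_sum, ← smul_eq_mul]
    exact card_nsmul_le_sum _ _ _ fun q hq => (hS q hq).2.1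
  have h2 : ∑ q ∈ S, (PB n' q (res c q)).card ≤ ∑ q ∈ S, ∑ p ∈ T, if (q : ℤ) ∣ (p : ℤ) - c then 1 else 0 := by
    apply sum_le_sum
    intro q hq
    rw [← card_filter]
    apply card_le_card
    intro p hp
    unfold PB at hp
    rw [mem_filter, mem_Ioc] at hp
    obtain ⟨⟨hq1, hq2⟩, hqp⟩ := mem_Win.1 (hS q hq).1
    have h3 := (res_modEq c q p hqp.pos).1 hp.2.2
    rw [mem_filter]
    exact ⟨(hS q hq).2.2 p (mem_Win.2 ⟨hp.1, hp.2.1⟩) h3, h3⟩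
  have h3 : ∑ q ∈ S, ∑ p ∈ T, (if (q : ℤ) ∣ (p : ℤ) - c then 1 else 0) ≤ T.card * 2 ^ (μ + 2) := by
    rw [sum_comm, ← smul_eq_mul]
    apply sum_le_card_nsmul
    intro p hp
    rw [← card_filter]
    obtain ⟨⟨hp1, hp2⟩, hpp⟩ := mem_Win.1 (hTW p hp)
    have hne : (p : ℤ) - c ≠ 0 := by
      intro h0
      have : (p : ℤ) = c := by linarith
      have h4 : p = c.natAbs := by rw [← this, Int.natAbs_natCast]
      omega
    have hne' : ((p : ℤ) - c).natAbs ≠ 0 := Int.natAbs_ne_zero.2 hne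
    have hsub : S.filter (fun q : ℕ => (q : ℤ) ∣ (p : ℤ) - c) ⊆ ((p : ℤ) - c).natAbs.primeFactors := by
      intro q hq
      rw [mem_filter] at hq
      rw [Nat.mem_primeFactors]
      exact ⟨(mem_Win.1 (hS q hq.1).1).2, Int.natCast_dvd.1 hq.2, hne'⟩
    have h5 : ((p : ℤ) - c).natAbs ≤ 2 ^ (n' + 6) := by
      have h6 : ((p : ℤ) - c).natAbs ≤ p + c.natAbs := by
        have := Int.natAbs_sub_le (p : ℤ) c
        rwa [Int.natAbs_natCast] at this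
      have h7 : 2 ^ (n' + 6) = 2 ^ (n' + 5) + 2 ^ (n' + 5) := by ring
      have h8 : 2 ^ n' ≤ 2 ^ (n' + 5) := Nat.pow_le_pow_right (by norm_num) (by omega)
      omega
    have h9 := two_pow_card_primeFactors_le _ hne'
    have h10 : ((p : ℤ) - c).natAbs.primeFactors.card ≤ n' + 6 := by
      have := h9.trans h5
      exact (Nat.pow_le_pow_iff_right (by norm_num)).1 this
    have h11 : n' + 6 ≤ 2 ^ (μ + 2) := by
      rw [show μ + 2 = μ + 1 + 1 from rfl]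
      omega
    exact (card_le_card hsub).trans (h10.trans h11)
  have h4 : S.card * 2 ^ (n + 16 * μ ^ 2 + 11) ≤ 2 ^ μ * (T.card * 2 ^ (μ + 2)) :=
    h1.trans (Nat.mul_le_mul_left _ (h2.trans h3))
  have h5 : (S.card * 2 ^ (μ ^ 2 + 10 * μ + 2)) * 2 ^ (n + 16 * μ ^ 2 + 2 * μ + 20) ≤
      2 ^ n * 2 ^ (n + 16 * μ ^ 2 + 2 * μ + 20) := by
    calc (S.card * 2 ^ (μ ^ 2 + 10 * μ + 2)) * 2 ^ (n + 16 * μ ^ 2 + 2 * μ + 20)
        = (S.card * 2 ^ (n + 16 * μ ^ 2 + 11)) * 2 ^ ((μ + 1) ^ 2 + 10 * (μ + 1)) := by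
          rw [mul_assoc, mul_assoc, ← pow_add, ← pow_add]
          congr 2
          ring
      _ ≤ (2 ^ μ * (T.card * 2 ^ (μ + 2))) * 2 ^ ((μ + 1) ^ 2 + 10 * (μ + 1)) := Nat.mul_le_mul_right _ h4
      _ = 2 ^ (2 * μ + 2) * (T.card * 2 ^ ((μ + 1) ^ 2 + 10 * (μ + 1))) := by
          rw [show 2 * μ + 2 = μ + (μ + 2) from by ring, pow_add 2 μ (μ + 2)]
          ring
      _ ≤ 2 ^ (2 * μ + 2) * 2 ^ n' := Nat.mul_le_mul_left _ hT
      _ = 2 ^ (n + (n + 16 * μ ^ 2 + 2 * μ + 18)) := by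
          rw [← pow_add]
          congr 1
          omega
      _ ≤ 2 ^ (n + (n + 16 * μ ^ 2 + 2 * μ + 20)) := Nat.pow_le_pow_right (by norm_num) (by omega)
      _ = 2 ^ n * 2 ^ (n + 16 * μ ^ 2 + 2 * μ + 20) := pow_add _ _ _
  exact Nat.le_of_mul_le_mul_right h5 (by positivity)

/-- almost all primes of every window start chains of every length -/
theorem bad_small (c : ℤ) (hc : c ≠ 0) : ∃ μ₀ : ℕ, 18 ≤ μ₀ ∧ c.natAbs ≤ μ₀ ∧ ∀ N n μ : ℕ, μ₀ ≤ μ → Sc n μ →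
    (Bad c N n μ).card * 2 ^ (μ ^ 2 + 10 * μ) ≤ 2 ^ n := by
  classical
  obtain ⟨Y₀, -, hY⟩ := psi1_pnt (1 / 100) (by norm_num)
  obtain ⟨k₁, hk₁⟩ := pow_unbounded_of_one_lt Y₀ (one_lt_two : (1 : ℝ) < 2)
  refine ⟨max 18 (max k₁ c.natAbs), le_max_left _ _, (le_max_right _ _).trans (le_max_right _ _), ?_⟩
  intro N
  induction N with
  | zero =>
    intro n μ _ _
    simp [Bad]
  | succ N ih =>
    intro n μ hμ hSc
    have hμ1 : k₁ ≤ μ := ((le_max_left _ _).trans (le_max_right _ _)).trans hμ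
    have hμ2 : c.natAbs ≤ μ := ((le_max_right _ _).trans (le_max_right _ _)).trans hμ
    have hμY : Y₀ ≤ (2 : ℝ) ^ μ := hk₁.le.trans (pow_le_pow_right₀ (by norm_num) hμ1)
    have hμ3 : μ < 2 ^ μ := Nat.lt_two_pow_self
    have hμ18 := hSc.1
    have hng := hSc.ge
    have hμn : μ ≤ n := by nlinarith
    have hcW : c.natAbs < 2 ^ n := lt_of_lt_of_le (by omega : c.natAbs < 2 ^ μ)
      (Nat.pow_le_pow_right (by norm_num) hμn)
    set S₁ := (Bad c (N + 1) n μ).filter (fun q => ¬ Er6 q (res c q) (2 ^ nx n μ) ≤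
      2 ^ nx n μ / (Nat.totient q : ℝ)) with hS₁
    set S₂ := (Bad c (N + 1) n μ).filter (fun q => ¬ ¬ Er6 q (res c q) (2 ^ nx n μ) ≤
      2 ^ nx n μ / (Nat.totient q : ℝ)) with hS₂
    have hcard : (Bad c (N + 1) n μ).card = S₁.card + S₂.card := by
      rw [hS₁, hS₂, card_filter_add_card_filter_not]
    have hmem : ∀ q ∈ Bad c (N + 1) n μ, q ∈ Win n ∧
        ∀ p ∈ Win (nx n μ), (q : ℤ) ∣ (p : ℤ) - c → p ∈ Bad c N (nx n μ) (μ + 1) := by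
      intro q hq
      rw [Bad, mem_filter] at hq
      exact hq
    have hBW : ∀ M k ν : ℕ, ∀ p ∈ Bad c M k ν, p ∈ Win k := by
      intro M k ν p hp
      cases M with
      | zero => simp [Bad] at hp
      | succ M =>
        rw [Bad, mem_filter] at hp
        exact hp.1
    have h1 : S₁.card * 2 ^ (μ ^ 2 + 10 * μ + 2) ≤ 2 ^ n := by
      apply few_large_errors c hc n μ hSc hcW
      intro q hq
      rw [hS₁, mem_filter] at hq
      exact ⟨(hmem q hq.1).1, hq.2⟩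
    have h2 : S₂.card * 2 ^ (μ ^ 2 + 10 * μ + 2) ≤ 2 ^ n := by
      apply few_without_followers c n μ hSc hcW S₂ (Bad c N (nx n μ) (μ + 1)) _ (hBW N _ (μ + 1))
        (ih (nx n μ) (μ + 1) (by omega) hSc.next)
      intro q hq
      rw [hS₂, mem_filter, not_not] at hq
      exact ⟨(hmem q hq.1).1, many_followers Y₀ hY c n μ hSc hμY q (hmem q hq.1).1 hq.2, (hmem q hq.1).2⟩
    have h3 : (Bad c (N + 1) n μ).card * 2 ^ (μ ^ 2 + 10 * μ) * 4 ≤ 2 ^ n * 2 := by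
      rw [hcard]
      calc (S₁.card + S₂.card) * 2 ^ (μ ^ 2 + 10 * μ) * 4
          = S₁.card * 2 ^ (μ ^ 2 + 10 * μ + 2) + S₂.card * 2 ^ (μ ^ 2 + 10 * μ + 2) := by
            rw [pow_add 2 (μ ^ 2 + 10 * μ) 2]
            ring
        _ ≤ 2 ^ n + 2 ^ n := add_le_add h1 h2
        _ = 2 ^ n * 2 := by ring
    omega

end Pool.Agent.Helper12.CG
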