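import Pool.Agent.Helper12.CH.Fin
import Pool.Agent.Helper12.CG.Tree

set_option autoImplicit false

/-! Prime chains from almost all primes: the infinite chains and the final count. -/

open Finset Filter Topology

namespace Pool.Agent.Helper12.CG

/-- the primes of the window `n` which start chains of every length -/
def Good (c : ℤ) (n μ q : ℕ) : Prop := q ∈ Win n ∧ ∀ N, q ∉ Bad c N n μ

theorem bad_mono_step (c : ℤ) (N : ℕ) : ∀ n μ, Bad c N n μ ⊆ Bad c (N + 1) n μ := by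
  classical
  induction N with
  | zero => intro n μ; simp [Bad]
  | succ N ih =>
    intro n μ q hq
    rw [Bad, mem_filter] at hq ⊢
    exact ⟨hq.1, fun p hp hd => ih (nx n μ) (μ + 1) (hq.2 p hp hd)⟩

theorem bad_mono (c : ℤ) (n μ : ℕ) {M N : ℕ} (h : M ≤ N) : Bad c M n μ ⊆ Bad c N n μ := by
  induction N, h using Nat.le_induction with
  | base => exact Subset.rfl
  | succ k hk ih => exact ih.trans (bad_mono_step c k n μ)

/-- a finite set all of whose elements are bad for some length is bad for one length -/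
theorem uniform (c : ℤ) (n μ : ℕ) (S : Finset ℕ) (h : ∀ p ∈ S, ∃ N, p ∈ Bad c N n μ) : ∃ N, S ⊆ Bad c N n μ := by
  classical
  choose! f hf using h
  refine ⟨S.sup f, fun p hp => ?_⟩
  exact bad_mono c n μ (le_sup hp) (hf p hp)

theorem good_next (c : ℤ) (n μ q : ℕ) (h : Good c n μ q) :
    ∃ p, Good c (nx n μ) (μ + 1) p ∧ (q : ℤ) ∣ (p : ℤ) - c := by
  classical
  by_contra hcon
  push Not at hcon
  obtain ⟨N, hN⟩ := uniform c (nx n μ) (μ + 1) ((Win (nx n μ)).filter (fun p => (q : ℤ) ∣ (p : ℤ) - c)) (by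
    intro p hp
    rw [mem_filter] at hp
    by_contra h2
    push Not at h2
    exact hcon p ⟨hp.1, h2⟩ hp.2)
  refine h.2 (N + 1) ?_
  rw [Bad, mem_filter]
  exact ⟨h.1, fun p hp hd => hN (mem_filter.2 ⟨hp, hd⟩)⟩

/-- the sequence of the scales -/
def sc (n μ : ℕ) : ℕ → ℕ
  | 0 => n
  | k + 1 => nx (sc n μ k) (μ + k)

theorem sc_add (n μ k : ℕ) : sc n μ k + hh (μ + k) = (n + hh μ) * 2 ^ k := by
  induction k with
  | zero => simp [sc]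
  | succ k ih =>
    rw [sc, ← add_assoc, nx_add, ih, pow_succ]
    ring

theorem sc_Sc {n μ : ℕ} (h : Sc n μ) (k : ℕ) : Sc (sc n μ k) (μ + k) := by
  induction k with
  | zero => exact h
  | succ k ih => exact ih.next

theorem exists_chain (c : ℤ) (n μ q : ℕ) (h : Good c n μ q) : ∃ f : ℕ → ℕ, f 0 = q ∧
    ∀ k, Good c (sc n μ k) (μ + k) (f k) ∧ (f k : ℤ) ∣ (f (k + 1) : ℤ) - c := by
  classical
  choose! g hg using fun (m ν : ℕ) (p : ℕ) (hp : Good c m ν p) => good_next c m ν p hp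
  let f : ℕ → ℕ := fun k => Nat.rec q (fun k p => g (sc n μ k) (μ + k) p) k
  have hf0 : f 0 = q := rfl
  have hfs : ∀ k, f (k + 1) = g (sc n μ k) (μ + k) (f k) := fun k => rfl
  have hgood : ∀ k, Good c (sc n μ k) (μ + k) (f k) := by
    intro k
    induction k with
    | zero => rw [hf0]; exact h
    | succ k ih => rw [hfs, ← add_assoc, sc]; exact (hg (sc n μ k) (μ + k) (f k) ih).1
  refine ⟨f, hf0, fun k => ⟨hgood k, ?_⟩⟩
  rw [hfs]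
  exact (hg (sc n μ k) (μ + k) (f k) (hgood k)).2

theorem pow_le (μ q : ℕ) (hμ : 14 ≤ μ) (h4 : (μ : ℝ) ^ 2 / 9 ≤ (Real.log (Real.log q)) ^ 2) :
    (2 : ℝ) ^ (16 * μ ^ 2 + 21) ≤ Real.exp (160 * (Real.log (Real.log q)) ^ 2) := by
  have hl2' : Real.log 2 ≤ 1 := by
    have := Real.log_two_lt_d9
    linarith
  have hμR : (14 : ℝ) ≤ μ := by exact_mod_cast hμ
  rw [← Real.log_le_iff_le_exp (by positivity), Real.log_pow]
  have h6 : (((16 * μ ^ 2 + 21 : ℕ)) : ℝ) * Real.log 2 ≤ ((16 * μ ^ 2 + 21 : ℕ) : ℝ) * 1 :=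
    mul_le_mul_of_nonneg_left hl2' (Nat.cast_nonneg _)
  refine h6.trans ?_
  push_cast
  have h7 : (21 : ℝ) ≤ (μ : ℝ) ^ 2 := by nlinarith
  linarith

theorem nx_pow (n μ : ℕ) : (2 : ℝ) ^ (nx n μ + 5) = (2 ^ n) ^ 2 * 2 ^ (16 * μ ^ 2 + 21) := by
  rw [nx, ← pow_mul, ← pow_add]
  congr 1
  ring

theorem growth (n μ q p : ℕ) (hSc : Sc n μ) (hq : q ∈ Win n) (hp : p ∈ Win (nx n μ)) :
    (p : ℝ) ≤ (q : ℝ) ^ 2 * Real.exp (160 * (Real.log (Real.log q)) ^ 2) := by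
  have hq1 := (mem_Win.1 hq).1.1
  have hμ : 14 ≤ μ := le_trans (by norm_num) hSc.1
  have hh : (2 : ℝ) ^ μ ≤ 2 * (n : ℕ) := by exact_mod_cast hSc.half
  have h1 : (2 : ℝ) ^ n ≤ q := by exact_mod_cast hq1.le
  have h4 := Pool.Agent.Helper12.CH.loglog_ge μ n q hμ hh h1
  have h5 := pow_le μ q hμ h4
  have hp2 : (p : ℝ) ≤ 2 ^ (nx n μ + 5) := by exact_mod_cast (mem_Win.1 hp).1.2
  rw [nx_pow] at hp2
  exact hp2.trans (mul_le_mul (pow_le_pow_left₀ (by positivity) h1 2) h5 (by positivity) (by positivity))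

/-- the chains from a good prime -/
theorem chain_of_good (c : ℤ) (n μ r : ℕ) (hSc : Sc n μ) (h : Good c n μ r) :
    ∃ f : ℕ → ℕ, f 0 = r ∧ StrictMono f ∧ (∀ i, (f i).Prime) ∧ (∀ i, (f i : ℤ) ∣ (f (i + 1) : ℤ) - c) ∧
      (∀ i, (f (i + 1) : ℝ) ≤ (f i : ℝ) ^ 2 * Real.exp (160 * (Real.log (Real.log (f i))) ^ 2)) ∧
      ∀ k, f k ≤ r ^ (2 ^ (k + 1)) := by
  obtain ⟨f, hf0, hf⟩ := exists_chain c n μ r h
  have hW : ∀ k, f k ∈ Win (sc n μ k) := fun k => (hf k).1.1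
  refine ⟨f, hf0, ?_, fun i => (mem_Win.1 (hW i)).2, fun i => (hf i).2, ?_, ?_⟩
  · apply strictMono_nat_of_lt_succ
    intro k
    have h1 := (mem_Win.1 (hW k)).1.2
    have h2 := (mem_Win.1 (hW (k + 1))).1.1
    have h3 := (sc_Sc hSc k).lt_nx
    calc f k ≤ 2 ^ (sc n μ k + 5) := h1
      _ ≤ 2 ^ (sc n μ (k + 1)) := Nat.pow_le_pow_right (by norm_num) h3.le
      _ < f (k + 1) := h2
  · intro i
    exact growth (sc n μ i) (μ + i) (f i) (f (i + 1)) (sc_Sc hSc i) (hW i) (hW (i + 1))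
  · intro k
    have h1 := (mem_Win.1 (hW k)).1.2
    have h2 := (mem_Win.1 h.1).1.1
    have h3 := sc_add n μ k
    have h4 : 5 ≤ hh (μ + k) := by unfold hh; omega
    have h5 : sc n μ k + 5 ≤ (2 * n) * 2 ^ k :=
      calc sc n μ k + 5 ≤ sc n μ k + hh (μ + k) := by omega
        _ = (n + hh μ) * 2 ^ k := h3
        _ ≤ (2 * n) * 2 ^ k := Nat.mul_le_mul_right _ hSc.add_hh_le
    calc f k ≤ 2 ^ (sc n μ k + 5) := h1
      _ ≤ 2 ^ ((2 * n) * 2 ^ k) := Nat.pow_le_pow_right (by norm_num) h5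
      _ = (2 ^ n) ^ (2 ^ (k + 1)) := by
          rw [← pow_mul]
          congr 1
          ring
      _ ≤ r ^ (2 ^ (k + 1)) := Nat.pow_le_pow_left h2.le _

/-- All primes `r ∈ (x, 2x]` but at most `x exp(-(log log x)²)` start such a chain. -/
theorem almost_all (c : ℤ) (hc : c ≠ 0) : ∃ x₀ : ℝ, ∀ x : ℝ, x₀ ≤ x →
    ({r : ℕ | r.Prime ∧ x < r ∧ (r : ℝ) ≤ 2 * x ∧ ¬ ∃ f : ℕ → ℕ, f 0 = r ∧ StrictMono f ∧ (∀ i, (f i).Prime) ∧
      (∀ i, (f i : ℤ) ∣ (f (i + 1) : ℤ) - c) ∧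
      (∀ i, (f (i + 1) : ℝ) ≤ (f i : ℝ) ^ 2 * Real.exp (160 * (Real.log (Real.log (f i))) ^ 2)) ∧
      ∀ k, f k ≤ r ^ (2 ^ (k + 1))}.ncard : ℝ) ≤ x * Real.exp (-(Real.log (Real.log x)) ^ 2) := by
  classical
  obtain ⟨μ₀, hμ₀, -, hbad⟩ := bad_small c hc
  refine ⟨2 ^ (2 ^ (μ₀ + 1)), fun x hx => ?_⟩
  have hx1 : 1 ≤ x := le_trans (one_le_pow₀ (by norm_num)) hx
  have hx0 : 0 < x := by linarith
  obtain ⟨n, hn⟩ : ∃ n, n = Nat.log 2 ⌊x⌋₊ := ⟨_, rfl⟩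
  have hfl : 1 ≤ ⌊x⌋₊ := (Nat.one_le_floor_iff x).2 hx1
  have hn1 : 2 ^ n ≤ ⌊x⌋₊ := by rw [hn]; exact Nat.pow_log_le_self 2 (by omega)
  have hn2 : ⌊x⌋₊ < 2 ^ (n + 1) := by rw [hn]; exact Nat.lt_pow_succ_log_self (by norm_num) _
  have hnx : (2 : ℝ) ^ n ≤ x := by
    calc (2 : ℝ) ^ n = ((2 ^ n : ℕ) : ℝ) := by push_cast; ring
      _ ≤ (⌊x⌋₊ : ℝ) := by exact_mod_cast hn1
      _ ≤ x := Nat.floor_le hx0.le
  have hnx2 : x < 2 ^ (n + 1) := by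
    have h1 : x < ⌊x⌋₊ + 1 := Nat.lt_floor_add_one x
    have h2 : (⌊x⌋₊ : ℝ) + 1 ≤ 2 ^ (n + 1) := by exact_mod_cast hn2
    linarith
  have hnbig : 2 ^ (μ₀ + 1) ≤ n := by
    have h1 : (2 : ℝ) ^ (2 ^ (μ₀ + 1)) < 2 ^ (n + 1) := hx.trans_lt hnx2
    have h2 := (pow_lt_pow_iff_right₀ (one_lt_two : (1 : ℝ) < 2)).1 h1
    omega
  obtain ⟨μ, hSc⟩ := exists_Sc n (le_trans (Nat.pow_le_pow_right (by norm_num) (by omega)) hnbig)
  have hμμ : μ₀ ≤ μ := by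
    have h1 := hSc.lt
    have h2 : 2 ^ (μ₀ + 1) < 2 ^ (μ + 1) := by omega
    have h3 := (Nat.pow_lt_pow_iff_right (by norm_num : 1 < 2)).1 h2
    omega
  -- the exceptional set
  set E : Set ℕ := {r : ℕ | r.Prime ∧ x < r ∧ (r : ℝ) ≤ 2 * x ∧ ¬ ∃ f : ℕ → ℕ, f 0 = r ∧ StrictMono f ∧
      (∀ i, (f i).Prime) ∧ (∀ i, (f i : ℤ) ∣ (f (i + 1) : ℤ) - c) ∧
      (∀ i, (f (i + 1) : ℝ) ≤ (f i : ℝ) ^ 2 * Real.exp (160 * (Real.log (Real.log (f i))) ^ 2)) ∧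
      ∀ k, f k ≤ r ^ (2 ^ (k + 1))} with hE
  have hEfin : E.Finite := by
    refine (Set.finite_Iic ⌊2 * x⌋₊).subset ?_
    intro r hr
    exact Nat.le_floor hr.2.2.1
  have hEW : ∀ r ∈ E, r ∈ Win n ∧ ∃ N, r ∈ Bad c N n μ := by
    rintro r ⟨h1, h2, h3, h4⟩
    have h5 : 2 ^ n < r := by exact_mod_cast hnx.trans_lt h2
    have h6 : r ≤ 2 ^ (n + 5) := by
      have h7 : (r : ℝ) ≤ 2 ^ (n + 5) := by
        have h8 : (2 : ℝ) ^ (n + 5) = 2 ^ (n + 1) * 16 := by rw [pow_add, pow_add]; norm_num; ring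
        rw [h8]
        linarith
      exact_mod_cast h7
    refine ⟨mem_Win.2 ⟨⟨h5, h6⟩, h1⟩, ?_⟩
    by_contra hcon
    push Not at hcon
    exact h4 (chain_of_good c n μ r hSc ⟨mem_Win.2 ⟨⟨h5, h6⟩, h1⟩, hcon⟩)
  obtain ⟨N, hN⟩ := uniform c n μ hEfin.toFinset (by
    intro r hr
    rw [Set.Finite.mem_toFinset] at hr
    exact (hEW r hr).2)
  have hcard : hEfin.toFinset.card * 2 ^ (μ ^ 2 + 10 * μ) ≤ 2 ^ n :=
    (Nat.mul_le_mul_right _ (card_le_card hN)).trans (hbad N n μ hμμ hSc)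
  rw [Set.ncard_eq_toFinset_card E hEfin]
  have hcardR : (hEfin.toFinset.card : ℝ) * 2 ^ (μ ^ 2 + 10 * μ) ≤ x := by
    have h1 : (hEfin.toFinset.card : ℝ) * 2 ^ (μ ^ 2 + 10 * μ) ≤ 2 ^ n := by exact_mod_cast hcard
    linarith
  -- the size
  have hn18 : 2 ^ 19 ≤ n := le_trans (Nat.pow_le_pow_right (by norm_num) (by omega)) hnbig
  have hl2 : Real.log 2 ≤ 1 := by
    have := Real.log_two_lt_d9
    linarith
  have hl2p : 0 < Real.log 2 := Real.log_pos (by norm_num)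
  have hlx1 : 1 ≤ Real.log x := by
    have h1 : (n : ℝ) * Real.log 2 ≤ Real.log x := by
      rw [← Real.log_pow]
      exact Real.log_le_log (by positivity) hnx
    have h2 : (2 : ℝ) ≤ n := by
      have : 2 ≤ n := by omega
      exact_mod_cast this
    have h3 : 1 / 2 ≤ Real.log 2 := by
      have := Real.log_two_gt_d9
      linarith
    nlinarith
  have hlx2 : Real.log x ≤ 2 ^ (μ + 1) := by
    have h1 : Real.log x ≤ ((n + 1 : ℕ) : ℝ) * Real.log 2 := by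
      rw [← Real.log_pow]
      exact Real.log_le_log hx0 hnx2.le
    have h2 : ((n + 1 : ℕ) : ℝ) * Real.log 2 ≤ ((n + 1 : ℕ) : ℝ) * 1 :=
      mul_le_mul_of_nonneg_left hl2 (Nat.cast_nonneg _)
    have h3 : n + 1 ≤ 2 ^ (μ + 1) := by
      have := hSc.lt
      omega
    have h4 : ((n + 1 : ℕ) : ℝ) ≤ 2 ^ (μ + 1) := by exact_mod_cast h3
    linarith
  have hll0 : 0 ≤ Real.log (Real.log x) := Real.log_nonneg hlx1
  have hll : Real.log (Real.log x) ≤ ((μ + 1 : ℕ) : ℝ) * Real.log 2 := by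
    rw [← Real.log_pow]
    exact Real.log_le_log (by linarith) hlx2
  have hsq : (Real.log (Real.log x)) ^ 2 ≤ ((μ ^ 2 + 10 * μ : ℕ) : ℝ) * Real.log 2 := by
    calc (Real.log (Real.log x)) ^ 2 ≤ (((μ + 1 : ℕ) : ℝ) * Real.log 2) ^ 2 := pow_le_pow_left₀ hll0 hll 2
      _ = ((μ + 1 : ℕ) : ℝ) ^ 2 * Real.log 2 * Real.log 2 := by ring
      _ ≤ ((μ + 1 : ℕ) : ℝ) ^ 2 * Real.log 2 * 1 := mul_le_mul_of_nonneg_left hl2 (by positivity)
      _ = ((μ + 1 : ℕ) : ℝ) ^ 2 * Real.log 2 := mul_one _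
      _ ≤ ((μ ^ 2 + 10 * μ : ℕ) : ℝ) * Real.log 2 := by
          apply mul_le_mul_of_nonneg_right _ hl2p.le
          have h1 : (μ + 1) ^ 2 ≤ μ ^ 2 + 10 * μ := by
            have := hSc.1
            nlinarith
          exact_mod_cast h1
  have hexp : Real.exp ((Real.log (Real.log x)) ^ 2) ≤ 2 ^ (μ ^ 2 + 10 * μ) := by
    calc Real.exp ((Real.log (Real.log x)) ^ 2) ≤ Real.exp (((μ ^ 2 + 10 * μ : ℕ) : ℝ) * Real.log 2) :=
          Real.exp_le_exp.2 hsq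
      _ = 2 ^ (μ ^ 2 + 10 * μ) := by rw [Real.exp_nat_mul, Real.exp_log (by norm_num)]
  rw [Real.exp_neg, ← div_eq_mul_inv, le_div_iff₀ (Real.exp_pos _)]
  calc (hEfin.toFinset.card : ℝ) * Real.exp ((Real.log (Real.log x)) ^ 2)
      ≤ (hEfin.toFinset.card : ℝ) * 2 ^ (μ ^ 2 + 10 * μ) := mul_le_mul_of_nonneg_left hexp (Nat.cast_nonneg _)
    _ ≤ x := hcardR

end Pool.Agent.Helper12.CG
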